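import Mathlib
import Pool.Agent.Lib.MP_351560_co.All

set_option autoImplicit false

namespace Pool.Agent.Results.MP_351560_co.Full

open Pool.Agent.Lib.MP_351560_co

/-- Complete classification of the divisible complete tripartite graphs. -/
theorem result (t m n s : ℕ) (ht : 2 ≤ t) (hm : 1 ≤ m) (hn : 1 ≤ n) (hs : 1 ≤ s) :
    Divisible (K m n s) t ↔ t ∣ m * n + n * s + s * m ∧
      ((m = 1 ∧ n = 1) ∨ (n = 1 ∧ s = 1) ∨ (s = 1 ∧ m = 1) →
        m * n + n * s + s * m = t ∨ m * n + n * s + s * m = 3 * t) :=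
  full_two (two_all ht) ht hm hn hs

end Pool.Agent.Results.MP_351560_co.Full
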